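import Pool.Agent.Helper61.LE.LLL

/-!
# Tools for the AVD project: independence over disjoint coordinate sets, Hoeffding, Chernoff,
symmetric local lemma (on top of `Pool.Agent.Helper61.LE`).
-/

set_option autoImplicit false
set_option linter.unusedSectionVars false

namespace Pool.Agent.Helper5.AVD

open Finset Pool.Agent.Helper61.LE

variable {ι Ω : Type*} [Fintype ι] [DecidableEq ι] [Fintype Ω] [DecidableEq Ω]
variable {μ : ι → Ω → ℝ}

theorem dep_mono {β : Type*} {f : (ι → Ω) → β} {S T : Finset ι} (h : Dep f S) (hST : S ⊆ T) :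
    Dep f T :=
  fun ω ω' hω => h ω ω' fun i hi => hω i (hST hi)

theorem dep_comp {β γ : Type*} {f : (ι → Ω) → β} {S : Finset ι} (h : Dep f S) (g : β → γ) :
    Dep (fun ω => g (f ω)) S :=
  fun ω ω' hω => by
    show g (f ω) = g (f ω')
    rw [h ω ω' hω]

theorem dep_const {β : Type*} (b : β) (S : Finset ι) : Dep (fun _ : ι → Ω => b) S :=
  fun _ _ _ => rfl

theorem dep_prod {κ : Type*} (B : Finset κ) (f : κ → (ι → Ω) → ℝ) (V : κ → Finset ι)
    (h : ∀ b ∈ B, Dep (f b) (V b)) : Dep (fun ω => ∏ b ∈ B, f b ω) (B.biUnion V) := by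
  intro ω ω' hω
  refine Finset.prod_congr rfl fun b hb => h b hb ω ω' fun i hi => hω i ?_
  exact Finset.mem_biUnion.2 ⟨b, hb, hi⟩

theorem dep_sum {κ : Type*} (B : Finset κ) (f : κ → (ι → Ω) → ℝ) (V : κ → Finset ι)
    (h : ∀ b ∈ B, Dep (f b) (V b)) : Dep (fun ω => ∑ b ∈ B, f b ω) (B.biUnion V) := by
  intro ω ω' hω
  refine Finset.sum_congr rfl fun b hb => h b hb ω ω' fun i hi => hω i ?_
  exact Finset.mem_biUnion.2 ⟨b, hb, hi⟩

theorem dep_forall {κ : Type*} (B : Finset κ) (A : κ → (ι → Ω) → Prop) (V : κ → Finset ι)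
    (h : ∀ b ∈ B, Dep (A b) (V b)) : Dep (fun ω => ∀ b ∈ B, A b ω) (B.biUnion V) := by
  intro ω ω' hω
  apply propext
  refine forall₂_congr fun b hb => ?_
  rw [h b hb ω ω' fun i hi => hω i (Finset.mem_biUnion.2 ⟨b, hb, hi⟩)]

theorem dep_exists {κ : Type*} (B : Finset κ) (A : κ → (ι → Ω) → Prop) (V : κ → Finset ι)
    (h : ∀ b ∈ B, Dep (A b) (V b)) : Dep (fun ω => ∃ b ∈ B, A b ω) (B.biUnion V) := by
  intro ω ω' hω
  apply propext
  refine exists_congr fun b => ?_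
  constructor
  · rintro ⟨hb, hA⟩
    exact ⟨hb, by rwa [← h b hb ω ω' fun i hi => hω i (Finset.mem_biUnion.2 ⟨b, hb, hi⟩)]⟩
  · rintro ⟨hb, hA⟩
    exact ⟨hb, by rwa [h b hb ω ω' fun i hi => hω i (Finset.mem_biUnion.2 ⟨b, hb, hi⟩)]⟩

/-- the expectation of a product of factors with pairwise disjoint dependency sets -/
theorem EE_prod_of_disjoint (h : IsProb μ) {κ : Type*} [DecidableEq κ] (B : Finset κ)
    (f : κ → (ι → Ω) → ℝ) (V : κ → Finset ι) (hf : ∀ b ∈ B, Dep (f b) (V b))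
    (hV : ∀ b ∈ B, ∀ b' ∈ B, b ≠ b' → Disjoint (V b) (V b')) :
    EE μ (fun ω => ∏ b ∈ B, f b ω) = ∏ b ∈ B, EE μ (f b) := by
  induction B using Finset.induction_on with
  | empty => simp [EE_const h]
  | insert a B ha ih =>
    rw [Finset.prod_insert ha]
    rw [← ih (fun b hb => hf b (Finset.mem_insert_of_mem hb))
      (fun b hb b' hb' => hV b (Finset.mem_insert_of_mem hb) b' (Finset.mem_insert_of_mem hb'))]
    rw [← EE_mul_of_disjoint h (hf a (Finset.mem_insert_self a B))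
      (dep_prod B f V (fun b hb => hf b (Finset.mem_insert_of_mem hb)))]
    · exact EE_congr fun ω => Finset.prod_insert ha
    · rw [Finset.disjoint_biUnion_right]
      intro b hb
      exact hV a (Finset.mem_insert_self a B) b (Finset.mem_insert_of_mem hb)
        (fun hab => ha (hab ▸ hb))

/-- the probability of a conjunction of events with pairwise disjoint dependency sets -/
theorem PP_forall_of_disjoint (h : IsProb μ) {κ : Type*} [DecidableEq κ] (B : Finset κ)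
    (A : κ → (ι → Ω) → Prop) (V : κ → Finset ι) (hf : ∀ b ∈ B, Dep (A b) (V b))
    (hV : ∀ b ∈ B, ∀ b' ∈ B, b ≠ b' → Disjoint (V b) (V b')) :
    PP μ (fun ω => ∀ b ∈ B, A b ω) = ∏ b ∈ B, PP μ (A b) := by
  classical
  unfold PP
  rw [← EE_prod_of_disjoint h B (fun b ω => if A b ω then 1 else 0) V]
  · refine EE_congr fun ω => ?_
    by_cases hall : ∀ b ∈ B, A b ω
    · rw [if_pos hall]
      exact (Finset.prod_eq_one fun b hb => if_pos (hall b hb)).symm
    · rw [if_neg hall]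
      push Not at hall
      obtain ⟨b, hb, hbA⟩ := hall
      exact (Finset.prod_eq_zero hb (if_neg hbA)).symm
  · intro b hb ω ω' hω
    simp only [hf b hb ω ω' hω]
  · exact hV

/-! ### Exponential moments -/

theorem exp_le_cosh_add {x c l : ℝ} (hc : 0 < c) (hx : |x| ≤ c) :
    Real.exp (l * x) ≤ Real.cosh (l * c) + x * (Real.sinh (l * c) / c) := by
  obtain ⟨h1, h2⟩ := abs_le.1 hx
  have ha : 0 ≤ (c + x) / (2 * c) := div_nonneg (by linarith) (by linarith)
  have hb : 0 ≤ (c - x) / (2 * c) := div_nonneg (by linarith) (by linarith)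
  have hab : (c + x) / (2 * c) + (c - x) / (2 * c) = 1 := by field_simp; ring
  have hconv := convexOn_exp.2 (Set.mem_univ (l * c)) (Set.mem_univ (-(l * c))) ha hb hab
  simp only [smul_eq_mul] at hconv
  have hlx : (c + x) / (2 * c) * (l * c) + (c - x) / (2 * c) * -(l * c) = l * x := by
    field_simp; ring
  rw [hlx] at hconv
  refine hconv.trans (le_of_eq ?_)
  rw [Real.cosh_eq, Real.sinh_eq]
  field_simp
  ring

theorem EE_exp_le_hoeffding (h : IsProb μ) {X : (ι → Ω) → ℝ} {c : ℝ} (hc : 0 < c)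
    (hX : ∀ ω, |X ω| ≤ c) (hE : EE μ X = 0) (l : ℝ) :
    EE μ (fun ω => Real.exp (l * X ω)) ≤ Real.exp ((l * c) ^ 2 / 2) := by
  calc EE μ (fun ω => Real.exp (l * X ω))
      ≤ EE μ (fun ω => Real.cosh (l * c) + X ω * (Real.sinh (l * c) / c)) :=
        EE_mono h fun ω => exp_le_cosh_add hc (hX ω)
    _ = Real.cosh (l * c) := by
        rw [EE_add, EE_const h, EE_mul_const, hE]
        ring
    _ ≤ _ := Real.cosh_le_exp_half_sq _

/-- one-sided Hoeffding inequality, centred form -/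
theorem PP_hoeffding (h : IsProb μ) {κ : Type*} [DecidableEq κ] (B : Finset κ)
    (X : κ → (ι → Ω) → ℝ) (V : κ → Finset ι) (hX : ∀ b ∈ B, Dep (X b) (V b))
    (hV : ∀ b ∈ B, ∀ b' ∈ B, b ≠ b' → Disjoint (V b) (V b')) {c t : ℝ} (hc : 0 < c) (ht : 0 ≤ t)
    (hb : ∀ b ∈ B, ∀ ω, |X b ω| ≤ c) (hE : ∀ b ∈ B, EE μ (X b) = 0) {n : ℝ} (hn : (#B : ℝ) ≤ n) :
    PP μ (fun ω => t ≤ ∑ b ∈ B, X b ω) ≤ Real.exp (-(t ^ 2 / (2 * c ^ 2 * n))) := by
  have hn0 : 0 ≤ n := le_trans (Nat.cast_nonneg _) hn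
  rcases hn0.eq_or_lt with hn0 | hn0
  · rw [← hn0]
    simpa using PP_le_one h _
  set l : ℝ := t / (c ^ 2 * n) with hl
  have hl0 : 0 ≤ l := by positivity
  refine (PP_ge_le_exp h _ t l hl0).trans ?_
  have h1 : EE μ (fun ω => Real.exp (l * ∑ b ∈ B, X b ω)) =
      ∏ b ∈ B, EE μ (fun ω => Real.exp (l * X b ω)) := by
    rw [← EE_prod_of_disjoint h B (fun b ω => Real.exp (l * X b ω)) V]
    · refine EE_congr fun ω => ?_
      rw [Finset.mul_sum, Real.exp_sum]
    · intro b hb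
      exact dep_comp (hX b hb) (fun x => Real.exp (l * x))
    · exact hV
  have h2 : ∏ b ∈ B, EE μ (fun ω => Real.exp (l * X b ω)) ≤
      ∏ _b ∈ B, Real.exp ((l * c) ^ 2 / 2) := by
    refine Finset.prod_le_prod (fun b _ => EE_nonneg h fun ω => (Real.exp_pos _).le) ?_
    intro b hb'
    exact EE_exp_le_hoeffding h hc (hb b hb') (hE b hb') l
  rw [h1]
  refine (mul_le_mul_of_nonneg_left h2 (Real.exp_pos _).le).trans ?_
  rw [Finset.prod_const, ← Real.exp_nat_mul, ← Real.exp_add]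
  apply Real.exp_le_exp.2
  have h3 : (#B : ℝ) * ((l * c) ^ 2 / 2) ≤ n * ((l * c) ^ 2 / 2) :=
    mul_le_mul_of_nonneg_right hn (by positivity)
  have h4 : -(l * t) + n * ((l * c) ^ 2 / 2) = -(t ^ 2 / (2 * c ^ 2 * n)) := by
    rw [hl]
    field_simp
    ring
  linarith

/-- two-sided Hoeffding inequality -/
theorem PP_hoeffding_abs (h : IsProb μ) {κ : Type*} [DecidableEq κ] (B : Finset κ)
    (X : κ → (ι → Ω) → ℝ) (V : κ → Finset ι) (hX : ∀ b ∈ B, Dep (X b) (V b))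
    (hV : ∀ b ∈ B, ∀ b' ∈ B, b ≠ b' → Disjoint (V b) (V b')) {c t : ℝ} (hc : 0 < c) (ht : 0 ≤ t)
    (m : κ → ℝ) (hb : ∀ b ∈ B, ∀ ω, |X b ω - m b| ≤ c) (hE : ∀ b ∈ B, EE μ (X b) = m b)
    {n : ℝ} (hn : (#B : ℝ) ≤ n) :
    PP μ (fun ω => t ≤ |∑ b ∈ B, X b ω - ∑ b ∈ B, m b|) ≤
      2 * Real.exp (-(t ^ 2 / (2 * c ^ 2 * n))) := by
  have h1 := PP_hoeffding h B (fun b ω => X b ω - m b) V
    (fun b hb => dep_comp (hX b hb) (fun x => x - m b)) hV hc ht hb
    (fun b hb => by rw [EE_sub, EE_const h, hE b hb, sub_self]) hn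
  have h2 := PP_hoeffding h B (fun b ω => -(X b ω - m b)) V
    (fun b hb => dep_comp (hX b hb) (fun x => -(x - m b))) hV hc ht
    (fun b hb' ω => by rw [abs_neg]; exact hb b hb' ω)
    (fun b hb => by rw [EE_neg, EE_sub, EE_const h, hE b hb, sub_self, neg_zero]) hn
  have h3 : PP μ (fun ω => t ≤ |∑ b ∈ B, X b ω - ∑ b ∈ B, m b|) ≤
      PP μ (fun ω => ∃ k ∈ (Finset.univ : Finset Bool),
        (fun (k : Bool) ω => if k then t ≤ ∑ b ∈ B, (X b ω - m b)
          else t ≤ ∑ b ∈ B, -(X b ω - m b)) k ω) := by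
    refine PP_mono h fun ω hω => ?_
    rw [le_abs] at hω
    rcases hω with hω | hω
    · refine ⟨true, Finset.mem_univ _, ?_⟩
      simp only [if_true]
      rwa [Finset.sum_sub_distrib]
    · refine ⟨false, Finset.mem_univ _, ?_⟩
      simp only [Bool.false_eq_true, if_false]
      rw [Finset.sum_neg_distrib, Finset.sum_sub_distrib]
      exact hω
  refine h3.trans ((PP_exists_le h _ _).trans ?_)
  rw [Fintype.sum_bool]
  simp only [if_true, Bool.false_eq_true, if_false]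
  linarith

theorem exp_sub_one_sub_le_sq {l : ℝ} (hl : |l| ≤ 1) : Real.exp l - 1 - l ≤ l ^ 2 :=
  (le_abs_self _).trans (Real.abs_exp_sub_one_sub_id_le hl)

theorem EE_exp_le_chernoff (h : IsProb μ) {X : (ι → Ω) → ℝ} (hX : ∀ ω, 0 ≤ X ω ∧ X ω ≤ 1)
    {l : ℝ} (hl : |l| ≤ 1) :
    EE μ (fun ω => Real.exp (l * (X ω - EE μ X))) ≤ Real.exp (EE μ X * l ^ 2) := by
  set p := EE μ X with hp
  have hp0 : 0 ≤ p := EE_nonneg h fun ω => (hX ω).1
  have h1 : ∀ x : ℝ, 0 ≤ x → x ≤ 1 → Real.exp (l * x) ≤ 1 + x * (Real.exp l - 1) := by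
    intro x hx0 hx1
    have hconv := convexOn_exp.2 (Set.mem_univ l) (Set.mem_univ 0) hx0
      (sub_nonneg.2 hx1) (by ring)
    simp only [smul_eq_mul, mul_zero, add_zero, Real.exp_zero, mul_one] at hconv
    rw [mul_comm l x]
    linarith
  calc EE μ (fun ω => Real.exp (l * (X ω - p)))
      ≤ EE μ (fun ω => Real.exp (-(l * p)) * (1 + X ω * (Real.exp l - 1))) := by
        refine EE_mono h fun ω => ?_
        rw [show l * (X ω - p) = -(l * p) + l * X ω by ring, Real.exp_add]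
        exact mul_le_mul_of_nonneg_left (h1 _ (hX ω).1 (hX ω).2) (Real.exp_pos _).le
    _ = Real.exp (-(l * p)) * (1 + p * (Real.exp l - 1)) := by
        rw [EE_const_mul, EE_add, EE_const h, EE_mul_const, ← hp]
    _ ≤ Real.exp (-(l * p)) * Real.exp (p * (Real.exp l - 1)) := by
        refine mul_le_mul_of_nonneg_left ?_ (Real.exp_pos _).le
        have := Real.add_one_le_exp (p * (Real.exp l - 1))
        linarith
    _ = Real.exp (p * (Real.exp l - 1 - l)) := by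
        rw [← Real.exp_add]
        congr 1
        ring
    _ ≤ _ := by
        apply Real.exp_le_exp.2
        exact mul_le_mul_of_nonneg_left (exp_sub_one_sub_le_sq hl) hp0

/-- one-sided Chernoff inequality: `0 ≤ X b ≤ 1` independent, total mean at most `M`, deviation
`t ≤ 2 M`, sign `s = 1` or `s = -1`. -/
theorem PP_chernoff (h : IsProb μ) {κ : Type*} [DecidableEq κ] (B : Finset κ)
    (X : κ → (ι → Ω) → ℝ) (V : κ → Finset ι) (hX : ∀ b ∈ B, Dep (X b) (V b))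
    (hV : ∀ b ∈ B, ∀ b' ∈ B, b ≠ b' → Disjoint (V b) (V b')) {M t s : ℝ} (hM : 0 < M)
    (ht : 0 ≤ t) (htM : t ≤ 2 * M) (hs : |s| = 1)
    (hb : ∀ b ∈ B, ∀ ω, 0 ≤ X b ω ∧ X b ω ≤ 1) (hE : ∑ b ∈ B, EE μ (X b) ≤ M) :
    PP μ (fun ω => t ≤ s * (∑ b ∈ B, X b ω - ∑ b ∈ B, EE μ (X b))) ≤
      Real.exp (-(t ^ 2 / (4 * M))) := by
  set l : ℝ := t / (2 * M) with hl
  have hl0 : 0 ≤ l := by positivity
  have hl1 : l ≤ 1 := by
    rw [hl, div_le_one (by positivity)]
    exact htM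
  refine (PP_ge_le_exp h _ t l hl0).trans ?_
  have h1 : EE μ (fun ω => Real.exp (l * (s * (∑ b ∈ B, X b ω - ∑ b ∈ B, EE μ (X b))))) =
      ∏ b ∈ B, EE μ (fun ω => Real.exp ((l * s) * (X b ω - EE μ (X b)))) := by
    rw [← EE_prod_of_disjoint h B (fun b ω => Real.exp ((l * s) * (X b ω - EE μ (X b)))) V]
    · refine EE_congr fun ω => ?_
      rw [← Real.exp_sum, ← Finset.mul_sum, Finset.sum_sub_distrib, mul_assoc]
    · intro b hb
      exact dep_comp (hX b hb) (fun x => Real.exp ((l * s) * (x - EE μ (X b))))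
    · exact hV
  have h2 : ∏ b ∈ B, EE μ (fun ω => Real.exp ((l * s) * (X b ω - EE μ (X b)))) ≤
      ∏ b ∈ B, Real.exp (EE μ (X b) * (l * s) ^ 2) := by
    refine Finset.prod_le_prod (fun b _ => EE_nonneg h fun ω => (Real.exp_pos _).le) ?_
    intro b hb'
    refine EE_exp_le_chernoff h (hb b hb') ?_
    rw [abs_mul, hs, mul_one, abs_of_nonneg hl0]
    exact hl1
  rw [h1]
  refine (mul_le_mul_of_nonneg_left h2 (Real.exp_pos _).le).trans ?_
  rw [← Real.exp_sum, ← Finset.sum_mul, ← Real.exp_add]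
  apply Real.exp_le_exp.2
  have hs2 : (l * s) ^ 2 = l ^ 2 := by
    rw [mul_pow, ← sq_abs s, hs]
    ring
  rw [hs2]
  have h3 : (∑ b ∈ B, EE μ (X b)) * l ^ 2 ≤ M * l ^ 2 :=
    mul_le_mul_of_nonneg_right hE (by positivity)
  have h4 : -(l * t) + M * l ^ 2 = -(t ^ 2 / (4 * M)) := by
    rw [hl]
    field_simp
    ring
  linarith

/-- two-sided Chernoff inequality -/
theorem PP_chernoff_abs (h : IsProb μ) {κ : Type*} [DecidableEq κ] (B : Finset κ)
    (X : κ → (ι → Ω) → ℝ) (V : κ → Finset ι) (hX : ∀ b ∈ B, Dep (X b) (V b))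
    (hV : ∀ b ∈ B, ∀ b' ∈ B, b ≠ b' → Disjoint (V b) (V b')) {M t : ℝ} (hM : 0 < M)
    (ht : 0 ≤ t) (htM : t ≤ 2 * M)
    (hb : ∀ b ∈ B, ∀ ω, 0 ≤ X b ω ∧ X b ω ≤ 1) (hE : ∑ b ∈ B, EE μ (X b) ≤ M) :
    PP μ (fun ω => t ≤ |∑ b ∈ B, X b ω - ∑ b ∈ B, EE μ (X b)|) ≤
      2 * Real.exp (-(t ^ 2 / (4 * M))) := by
  have h1 := PP_chernoff h B X V hX hV hM ht htM (s := 1) (by simp) hb hE
  have h2 := PP_chernoff h B X V hX hV hM ht htM (s := -1) (by simp) hb hE
  have h3 : PP μ (fun ω => t ≤ |∑ b ∈ B, X b ω - ∑ b ∈ B, EE μ (X b)|) ≤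
      PP μ (fun ω => ∃ k ∈ (Finset.univ : Finset Bool),
        (fun (k : Bool) ω => if k then t ≤ 1 * (∑ b ∈ B, X b ω - ∑ b ∈ B, EE μ (X b))
          else t ≤ -1 * (∑ b ∈ B, X b ω - ∑ b ∈ B, EE μ (X b))) k ω) := by
    refine PP_mono h fun ω hω => ?_
    rw [le_abs] at hω
    rcases hω with hω | hω
    · refine ⟨true, Finset.mem_univ _, ?_⟩
      simp only [if_true, one_mul]
      exact hω
    · refine ⟨false, Finset.mem_univ _, ?_⟩
      simp only [Bool.false_eq_true, if_false, neg_mul, one_mul]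
      exact hω
  refine h3.trans ((PP_exists_le h _ _).trans ?_)
  rw [Fintype.sum_bool]
  simp only [if_true, Bool.false_eq_true, if_false]
  linarith

/-- the expectation of an indicator is the probability -/
theorem EE_ind {A : (ι → Ω) → Prop} [DecidablePred A] :
    EE μ (fun ω => if A ω then 1 else 0) = PP μ A := by
  unfold PP
  refine EE_congr fun ω => ?_
  by_cases hA : A ω <;> simp [hA]

/-- the probability of an event on a single coordinate -/
theorem PP_coord (h : IsProb μ) (i : ι) (N : Ω → Prop) [DecidablePred N] :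
    PP μ (fun ω => N (ω i)) = ∑ a, if N a then μ i a else 0 := by
  classical
  have h1 := EE_prod (μ := μ) (fun j a => if j = i then (if N a then (1 : ℝ) else 0) else 1)
  have h2 : PP μ (fun ω => N (ω i)) =
      EE μ (fun ω => ∏ j, (if j = i then (if N (ω j) then (1 : ℝ) else 0) else 1)) := by
    rw [← EE_ind]
    refine EE_congr fun ω => ?_
    rw [Finset.prod_ite_eq']
    simp
  rw [h2, h1]
  rw [Finset.prod_eq_single i]
  · refine Finset.sum_congr rfl fun a _ => ?_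
    simp
  · intro j _ hj
    simp only [hj, if_false, mul_one]
    exact h.sum_one j
  · intro hi
    exact absurd (Finset.mem_univ i) hi

/-- Symmetric local lemma. -/
theorem lll_symm (h : IsProb μ) {κ : Type*} [DecidableEq κ] (J : Finset κ)
    (A : κ → (ι → Ω) → Prop) (S : κ → Finset ι) (hdep : ∀ j ∈ J, Dep (A j) (S j))
    {P : ℝ} {D : ℕ} (hP : ∀ j ∈ J, PP μ (A j) ≤ P) (hP0 : 0 ≤ P) (hD1 : 1 ≤ D)
    (hD : ∀ i ∈ J, #(J.filter (fun j => ¬ Disjoint (S i) (S j))) ≤ D)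
    (hPD : P * D ≤ 1 / 4) :
    ∃ ω, (∀ i, μ i (ω i) ≠ 0) ∧ ∀ j ∈ J, ¬ A j ω := by
  refine lll h J A S hdep (fun j hj => (hP j hj).trans ?_) (fun i hi => ?_)
  · have : P * 1 ≤ P * (D : ℝ) := mul_le_mul_of_nonneg_left (by exact_mod_cast hD1) hP0
    linarith
  · calc ∑ j ∈ J.filter (fun j => ¬ Disjoint (S i) (S j)), PP μ (A j)
        ≤ ∑ _j ∈ J.filter (fun j => ¬ Disjoint (S i) (S j)), P :=
          Finset.sum_le_sum fun j hj => hP j (Finset.mem_filter.1 hj).1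
      _ = (#(J.filter (fun j => ¬ Disjoint (S i) (S j))) : ℝ) * P := by
          rw [Finset.sum_const, nsmul_eq_mul]
      _ ≤ (D : ℝ) * P := mul_le_mul_of_nonneg_right (by exact_mod_cast hD i hi) hP0
      _ ≤ 1 / 4 := by rw [mul_comm]; exact hPD

/-- Symmetric local lemma, dependency counted through the coordinates: every event uses at most
`s` coordinates, every coordinate is used by at most `r` events. -/
theorem lll_count (h : IsProb μ) {κ : Type*} [DecidableEq κ] (J : Finset κ)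
    (A : κ → (ι → Ω) → Prop) (S : κ → Finset ι) (hdep : ∀ j ∈ J, Dep (A j) (S j))
    {P : ℝ} {s r : ℕ} (hP : ∀ j ∈ J, PP μ (A j) ≤ P) (hP0 : 0 ≤ P)
    (hs : ∀ j ∈ J, #(S j) ≤ s) (hr : ∀ i, #(J.filter (fun j => i ∈ S j)) ≤ r)
    (hs1 : 1 ≤ s) (hr1 : 1 ≤ r) (hPD : P * (s * r : ℕ) ≤ 1 / 4) :
    ∃ ω, (∀ i, μ i (ω i) ≠ 0) ∧ ∀ j ∈ J, ¬ A j ω := by
  refine lll_symm h J A S hdep hP hP0 (D := s * r) (Nat.one_le_iff_ne_zero.2
    (Nat.mul_ne_zero (by omega) (by omega))) (fun i hi => ?_) hPD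
  have hsub : J.filter (fun j => ¬ Disjoint (S i) (S j)) ⊆
      (S i).biUnion (fun x => J.filter (fun j => x ∈ S j)) := by
    intro j hj
    rw [Finset.mem_filter, Finset.not_disjoint_iff] at hj
    obtain ⟨hj, x, hx1, hx2⟩ := hj
    exact Finset.mem_biUnion.2 ⟨x, hx1, Finset.mem_filter.2 ⟨hj, hx2⟩⟩
  refine (Finset.card_le_card hsub).trans (Finset.card_biUnion_le.trans ?_)
  calc ∑ x ∈ S i, #(J.filter (fun j => x ∈ S j)) ≤ ∑ _x ∈ S i, r :=
        Finset.sum_le_sum fun x _ => hr x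
    _ = #(S i) * r := by rw [Finset.sum_const, smul_eq_mul]
    _ ≤ s * r := Nat.mul_le_mul_right _ (hs i hi)

/-- the uniform weights -/
theorem isProb_unif [Nonempty Ω] : IsProb (fun (_ : ι) (_ : Ω) => (1 : ℝ) / Fintype.card Ω) where
  nonneg := fun _ _ => by positivity
  sum_one := fun _ => by
    rw [Finset.sum_const, Finset.card_univ, nsmul_eq_mul]
    have : (Fintype.card Ω : ℝ) ≠ 0 := by
      exact_mod_cast Fintype.card_ne_zero
    field_simp

end Pool.Agent.Helper5.AVD
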